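import Mathlib

namespace Pool.Agent.H.MP_1755e3_an

open NormedSpace Filter Topology

variable {A : Type*} [NormedRing A] [NormOneClass A] [NormedAlgebra ℝ A] [CompleteSpace A]

omit [NormedAlgebra ℝ A] [CompleteSpace A] in
lemma pow_sub_pow_le {a b : A} {M : ℝ} (hM : 1 ≤ M) (ha : ‖a‖ ≤ M) (hb : ‖b‖ ≤ M) (k : ℕ) :
    ‖a ^ k - b ^ k‖ ≤ k * M ^ k * ‖a - b‖ := by
  induction k with
  | zero => simp
  | succ k ih =>
    have e : a ^ (k + 1) - b ^ (k + 1) = a * (a ^ k - b ^ k) + (a - b) * b ^ k := by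
      rw [pow_succ' a, pow_succ' b]; noncomm_ring
    have h1 : ‖b ^ k‖ ≤ M ^ k := (norm_pow_le b k).trans (pow_le_pow_left₀ (norm_nonneg _) hb k)
    have h2 : M ^ k ≤ M ^ (k + 1) := pow_le_pow_right₀ hM (Nat.le_succ k)
    rw [e]
    calc _ ≤ ‖a‖ * ‖a ^ k - b ^ k‖ + ‖a - b‖ * ‖b ^ k‖ :=
          (norm_add_le _ _).trans (add_le_add (norm_mul_le _ _) (norm_mul_le _ _))
      _ ≤ M * (k * M ^ k * ‖a - b‖) + ‖a - b‖ * M ^ (k + 1) := by
          gcongr
          exact h1.trans h2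
      _ = _ := by push_cast; ring

omit [NormOneClass A] in
lemma exp_mul_exp_neg (X : A) (t : ℝ) : exp (t • X) * exp ((-t) • X) = 1 := by
  let _ := NormedAlgebra.restrictScalars ℚ ℝ A
  rw [← exp_add_of_commute (((Commute.refl X).smul_left _).smul_right _), ← add_smul]
  simp

omit [NormOneClass A] [CompleteSpace A] in
lemma slope_tendsto {g : ℝ → A} {X : A} (h0 : g 0 = 1) (hg : HasDerivAt g X 0) {e : ℕ → ℝ}
    (he : ∀ n, 0 < e n) (he0 : Tendsto e atTop (𝓝 0)) :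
    Tendsto (fun n => (e n)⁻¹ • (g (e n) - 1)) atTop (𝓝 X) := by
  have h1 := hasDerivAt_iff_tendsto_slope_zero.1 hg
  have h2 : Tendsto e atTop (𝓝[≠] 0) :=
    tendsto_nhdsWithin_iff.2 ⟨he0, Eventually.of_forall fun n => (he n).ne'⟩
  simpa [h0, Function.comp_def] using h1.comp h2

/-- Tangent directions of a closed submonoid generate one-parameter semigroups inside it. -/
theorem exp_mem_of_tangent (K : Submonoid A) (hK : IsClosed (K : Set A)) (g : ℕ → A)
    (hg : ∀ n, g n ∈ K) (e : ℕ → ℝ) (he : ∀ n, 0 < e n) (he0 : Tendsto e atTop (𝓝 0)) (X : A)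
    (hX : Tendsto (fun n => (e n)⁻¹ • (g n - 1)) atTop (𝓝 X)) (t : ℝ) (ht : 0 ≤ t) :
    exp (t • X) ∈ K := by
  let _ := NormedAlgebra.restrictScalars ℚ ℝ A
  set k : ℕ → ℕ := fun n => ⌊t / e n⌋₊ with hk
  have k1 : ∀ n, (k n : ℝ) * e n ≤ t := fun n => by
    have := Nat.floor_le (div_nonneg ht (he n).le)
    rwa [le_div_iff₀ (he n)] at this
  have k2 : ∀ n, t - e n ≤ (k n : ℝ) * e n := fun n => by
    have := Nat.lt_floor_add_one (t / e n)
    rw [div_lt_iff₀ (he n)] at this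
    simp only [hk]; linarith
  have k3 : Tendsto (fun n => (k n : ℝ) * e n) atTop (𝓝 t) :=
    tendsto_of_tendsto_of_tendsto_of_le_of_le (by simpa using he0.const_sub t)
      tendsto_const_nhds k2 k1
  have hY : Tendsto (fun n => (e n)⁻¹ • (exp (e n • X) - 1)) atTop (𝓝 X) := by
    refine slope_tendsto (g := fun s : ℝ => exp (s • X)) (by simp) ?_ he he0
    simpa using hasDerivAt_exp_smul_const (𝕂 := ℝ) X 0
  have h1 : Tendsto (fun n => exp (e n • X) ^ k n) atTop (𝓝 (exp (t • X))) := by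
    have : Tendsto (fun n => exp (((k n : ℝ) * e n) • X)) atTop (𝓝 (exp (t • X))) :=
      (k3.smul_const X).exp
    refine this.congr fun n => ?_
    rw [← exp_nsmul, mul_smul, Nat.cast_smul_eq_nsmul]
  set C := ‖X‖ + 1 with hC
  have hC0 : 0 ≤ C := by positivity
  have bnd : ∀ (a : A) (n : ℕ), ‖(e n)⁻¹ • (a - 1)‖ ≤ C → ‖a‖ ≤ Real.exp (C * e n) := by
    intro a n h
    have : a = 1 + e n • ((e n)⁻¹ • (a - 1)) := by
      rw [smul_smul, mul_inv_cancel₀ (he n).ne', one_smul]; abel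
    rw [this]
    refine (norm_add_le _ _).trans ?_
    rw [norm_one, norm_smul, Real.norm_eq_abs, abs_of_pos (he n)]
    have h3 := Real.add_one_le_exp (C * e n)
    have := mul_le_mul_of_nonneg_left h (he n).le
    linarith
  have h2 : Tendsto (fun n => g n ^ k n - exp (e n • X) ^ k n) atTop (𝓝 0) := by
    have d : Tendsto (fun n => t * Real.exp (C * t) *
        ‖(e n)⁻¹ • (g n - 1) - (e n)⁻¹ • (exp (e n • X) - 1)‖) atTop (𝓝 0) := by
      simpa using (hX.sub hY).norm.const_mul (t * Real.exp (C * t))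
    refine squeeze_zero_norm' ?_ d
    filter_upwards [hX.norm.eventually (ge_mem_nhds (lt_add_one ‖X‖)),
      hY.norm.eventually (ge_mem_nhds (lt_add_one ‖X‖))] with n a1 a2
    have hM : 1 ≤ Real.exp (C * e n) := Real.one_le_exp (mul_nonneg hC0 (he n).le)
    refine (pow_sub_pow_le hM (bnd _ n a1) (bnd _ n a2) (k n)).trans ?_
    have e1 : g n - exp (e n • X) =
        e n • ((e n)⁻¹ • (g n - 1) - (e n)⁻¹ • (exp (e n • X) - 1)) := by
      rw [← smul_sub, smul_smul, mul_inv_cancel₀ (he n).ne', one_smul]; abel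
    rw [e1, norm_smul, Real.norm_eq_abs, abs_of_pos (he n), ← Real.exp_nat_mul]
    have e2 : Real.exp (k n * (C * e n)) ≤ Real.exp (C * t) := by
      rw [Real.exp_le_exp, mul_left_comm]
      exact mul_le_mul_of_nonneg_left (k1 n) hC0
    calc _ = (k n * e n) * Real.exp (k n * (C * e n)) *
          ‖(e n)⁻¹ • (g n - 1) - (e n)⁻¹ • (exp (e n • X) - 1)‖ := by ring
      _ ≤ _ := by gcongr; exact k1 n
  have h3 : Tendsto (fun n => g n ^ k n) atTop (𝓝 (exp (t • X))) := by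
    simpa using h2.add h1
  exact hK.mem_of_tendsto h3 (Eventually.of_forall fun n => K.pow_mem (hg n) _)

/-- generators of one-parameter groups inside `K` -/
def Lie (K : Submonoid A) : Set A := {X | ∀ t : ℝ, exp (t • X) ∈ K}

omit [NormOneClass A] [CompleteSpace A] in
lemma Lie.smul {K : Submonoid A} {X : A} (h : X ∈ Lie K) (c : ℝ) : c • X ∈ Lie K := fun t => by
  rw [smul_smul]; exact h _

omit [NormOneClass A] [CompleteSpace A] in
lemma mem_Lie_of {K : Submonoid A} {X : A} (h1 : ∀ t : ℝ, 0 ≤ t → exp (t • X) ∈ K)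
    (h2 : ∀ t : ℝ, 0 ≤ t → exp (t • (-X)) ∈ K) : X ∈ Lie K := fun t => by
  rcases le_total 0 t with h | h
  · exact h1 t h
  · simpa using h2 (-t) (by linarith)

lemma Lie.add {K : Submonoid A} (hK : IsClosed (K : Set A)) {X Y : A} (hX : X ∈ Lie K)
    (hY : Y ∈ Lie K) : X + Y ∈ Lie K := by
  have key : ∀ X Y : A, X ∈ Lie K → Y ∈ Lie K → ∀ t : ℝ, 0 ≤ t → exp (t • (X + Y)) ∈ K := by
    intro X Y hX hY t ht
    have he : ∀ n : ℕ, (0 : ℝ) < 1 / ((n : ℝ) + 1) := fun n => by positivity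
    refine exp_mem_of_tangent K hK (fun n => exp ((1 / ((n : ℝ) + 1)) • X) *
      exp ((1 / ((n : ℝ) + 1)) • Y)) (fun n => K.mul_mem (hX _) (hY _)) _ he
      tendsto_one_div_add_atTop_nhds_zero_nat _ ?_ t ht
    refine slope_tendsto (g := fun s : ℝ => exp (s • X) * exp (s • Y)) (by simp) ?_ he
      tendsto_one_div_add_atTop_nhds_zero_nat
    simpa using (hasDerivAt_exp_smul_const (𝕂 := ℝ) X 0).fun_mul
      (hasDerivAt_exp_smul_const (𝕂 := ℝ) Y 0)
  refine mem_Lie_of (key X Y hX hY) fun t ht => ?_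
  have := key _ _ (Lie.smul hX (-1)) (Lie.smul hY (-1)) t ht
  simpa [add_comm] using this

omit [NormOneClass A] in
lemma Lie.isClosed {K : Submonoid A} (hK : IsClosed (K : Set A)) : IsClosed (Lie K) := by
  let _ := NormedAlgebra.restrictScalars ℚ ℝ A
  have : Lie K = ⋂ t : ℝ, (fun X : A => exp (t • X)) ⁻¹' (K : Set A) := by
    ext X; simp [Lie]
  rw [this]
  exact isClosed_iInter fun t => hK.preimage (by fun_prop)

omit [NormOneClass A] in
lemma Lie.conj {K : Submonoid A} {X Z : A} (hX : X ∈ Lie K) (hZ : Z ∈ Lie K) (s : ℝ) :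
    exp (s • X) * Z * exp ((-s) • X) ∈ Lie K := fun t => by
  let _ := NormedAlgebra.restrictScalars ℚ ℝ A
  let u : Aˣ := ⟨exp (s • X), exp ((-s) • X), exp_mul_exp_neg X s, by
    simpa using exp_mul_exp_neg X (-s)⟩
  have h := exp_units_conj u (t • Z)
  have e : t • (exp (s • X) * Z * exp ((-s) • X)) = u * (t • Z) * ↑u⁻¹ := by
    simp [u]
  rw [e, h]
  exact K.mul_mem (K.mul_mem (hX s) (hZ t)) (hX (-s))

lemma Lie.bracket {K : Submonoid A} (hK : IsClosed (K : Set A)) {X Z : A} (hX : X ∈ Lie K)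
    (hZ : Z ∈ Lie K) : X * Z - Z * X ∈ Lie K := by
  have hd : HasDerivAt (fun s : ℝ => exp (s • X) * Z * exp ((-s) • X)) (X * Z - Z * X) 0 := by
    have h1 := hasDerivAt_exp_smul_const (𝕂 := ℝ) X 0
    have h2 := hasDerivAt_exp_smul_const (𝕂 := ℝ) (-X) 0
    have := (h1.mul_const Z).fun_mul h2
    simpa [sub_eq_add_neg] using this
  have h1 := hasDerivAt_iff_tendsto_slope_zero.1 hd
  refine (Lie.isClosed hK).mem_of_tendsto h1 (Eventually.of_forall fun s => ?_)
  refine Lie.smul ?_ _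
  have := Lie.add hK (Lie.conj hX hZ s) (Lie.smul hZ (-1))
  simpa [sub_eq_add_neg] using this

/-- A sequence of invertible elements of `K` tending to `1` produces a nonzero generator. -/
theorem exists_gen [FiniteDimensional ℝ A] (K : Submonoid A) (hK : IsClosed (K : Set A))
    (g g' : ℕ → A) (hg : ∀ n, g n ∈ K) (hg' : ∀ n, g' n ∈ K) (hgg : ∀ n, g' n * g n = 1)
    (h1 : Tendsto g atTop (𝓝 1)) (h1' : Tendsto g' atTop (𝓝 1)) (hne : ∀ n, g n ≠ 1) :
    ∃ X ∈ Lie K, X ≠ 0 ∧ ∃ (φ : ℕ → ℕ) (e : ℕ → ℝ), (∀ n, 0 < e n) ∧ Tendsto e atTop (𝓝 0) ∧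
      Tendsto (fun n => (e n)⁻¹ • (g (φ n) - 1)) atTop (𝓝 X) := by
  have := FiniteDimensional.proper_real A
  have hp : ∀ n, 0 < ‖g n - 1‖ := fun n => norm_pos_iff.2 (sub_ne_zero.2 (hne n))
  obtain ⟨X, hX, φ, hφ, hl⟩ := (isCompact_sphere (0 : A) 1).tendsto_subseq
    (x := fun n => ‖g n - 1‖⁻¹ • (g n - 1)) (fun n => by
      rw [mem_sphere_zero_iff_norm, norm_smul, norm_inv, norm_norm, inv_mul_cancel₀ (hp n).ne'])
  have he0 : Tendsto (fun n => ‖g (φ n) - 1‖) atTop (𝓝 0) :=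
    (tendsto_iff_norm_sub_tendsto_zero.1 h1).comp hφ.tendsto_atTop
  refine ⟨X, mem_Lie_of ?_ ?_, ?_, φ, _, fun n => hp (φ n), he0, hl⟩
  · exact exp_mem_of_tangent K hK _ (fun n => hg (φ n)) _ (fun n => hp (φ n)) he0 X hl
  · refine exp_mem_of_tangent K hK _ (fun n => hg' (φ n)) _ (fun n => hp (φ n)) he0 (-X) ?_
    have := ((h1'.comp hφ.tendsto_atTop).mul hl).neg
    rw [one_mul] at this
    refine this.congr fun n => ?_
    simp only [Function.comp, mul_smul_comm, mul_sub, hgg, mul_one, ← smul_neg, neg_sub]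
  · rintro rfl
    simp at hX

end Pool.Agent.H.MP_1755e3_an
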