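import Mathlib
import Pool.Agent.H.MP_1755e3_an.A

namespace Pool.Agent.H.MP_1755e3_an

open NormedSpace Filter Topology Set

abbrev E := ℝ × ℝ × ℝ

/-- linear map of homogeneous coordinates with last row `(0,0,w)` -/
noncomputable def mk7 (a b e c d g w : ℝ) : E →L[ℝ] E :=
  LinearMap.toContinuousLinearMap
    { toFun := fun p => (a * p.1 + b * p.2.1 + e * p.2.2, c * p.1 + d * p.2.1 + g * p.2.2, w * p.2.2)
      map_add' := by intro p q; ext <;> simp <;> ring
      map_smul' := by intro r p; ext <;> simp <;> ring }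

@[simp] lemma mk7_apply (a b e c d g w : ℝ) (p : E) : mk7 a b e c d g w p =
    (a * p.1 + b * p.2.1 + e * p.2.2, c * p.1 + d * p.2.1 + g * p.2.2, w * p.2.2) := rfl

lemma eq_mk7 (X : E →L[ℝ] E) (h : ∀ p, (X p).2.2 = 0) :
    X = mk7 (X (1, 0, 0)).1 (X (0, 1, 0)).1 (X (0, 0, 1)).1
      (X (1, 0, 0)).2.1 (X (0, 1, 0)).2.1 (X (0, 0, 1)).2.1 0 := by
  refine ContinuousLinearMap.ext fun p => ?_
  have hp : p = p.1 • ((1, 0, 0) : E) + p.2.1 • ((0, 1, 0) : E) + p.2.2 • ((0, 0, 1) : E) := by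
    ext <;> simp
  have h3 := h p
  conv_lhs => rw [hp]
  rw [hp] at h3
  simp only [map_add, map_smul] at h3 ⊢
  ext
  · simp; ring
  · simp; ring
  · simpa using h3

def Gr (f : ℝ → ℝ) : Set E := range fun x => (x, f x, 1)

def KK (f : ℝ → ℝ) : Submonoid (E →L[ℝ] E) where
  carrier := {g | MapsTo g (closure (Gr f)) (closure (Gr f))}
  one_mem' := fun _ h => h
  mul_mem' := fun ha hb _ h => ha (hb h)

lemma KK_closed (f : ℝ → ℝ) : IsClosed (KK f : Set (E →L[ℝ] E)) := by
  have : (KK f : Set (E →L[ℝ] E)) =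
      ⋂ p ∈ closure (Gr f), (fun g : E →L[ℝ] E => g p) ⁻¹' closure (Gr f) := by
    ext g; simp only [mem_iInter]; rfl
  rw [this]
  exact isClosed_biInter fun p _ => isClosed_closure.preimage (by fun_prop)

lemma mem_KK {f : ℝ → ℝ} {g : E →L[ℝ] E} (h : MapsTo g (Gr f) (Gr f)) : g ∈ KK f :=
  h.closure g.continuous

lemma gr_mem (f : ℝ → ℝ) (x : ℝ) : ((x, f x, 1) : E) ∈ closure (Gr f) :=
  subset_closure ⟨x, rfl⟩

lemma cl_third {f : ℝ → ℝ} {p : E} (h : p ∈ closure (Gr f)) : p.2.2 = 1 :=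
  closure_minimal (t := {p : E | p.2.2 = 1}) (by rintro _ ⟨x, rfl⟩; rfl)
    (isClosed_eq (by fun_prop) continuous_const) h

lemma cl_cont {f : ℝ → ℝ} {p : E} (h : p ∈ closure (Gr f)) (hc : ContinuousAt f p.1) :
    p.2.1 = f p.1 := by
  obtain ⟨u, hu, hl⟩ := mem_closure_iff_seq_limit.1 h
  choose x hx using hu
  have h1 : Tendsto x atTop (𝓝 p.1) := by
    refine ((continuous_fst.tendsto p).comp hl).congr fun n => ?_
    simp [← hx n]
  have h2 : Tendsto (fun n => f (x n)) atTop (𝓝 p.2.1) := by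
    refine (((continuous_fst.comp continuous_snd).tendsto p).comp hl).congr fun n => ?_
    simp [← hx n]
  exact tendsto_nhds_unique h2 (hc.tendsto.comp h1)

lemma cl_local {f : ℝ → ℝ} {x0 δ : ℝ} {S : Set E} (hS : IsClosed S)
    (h : ∀ s, |s - x0| < δ → ((s, f s, 1) : E) ∈ S) {p : E} (hp : p ∈ closure (Gr f))
    (h1 : |p.1 - x0| < δ) : p ∈ S := by
  have := closure_minimal (t := {p : E | δ ≤ |p.1 - x0|} ∪ S) (by
    rintro _ ⟨x, rfl⟩
    rcases le_or_gt δ |x - x0| with h2 | h2
    · exact Or.inl h2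
    · exact Or.inr (h x h2)) ((isClosed_le continuous_const (by fun_prop)).union hS) hp
  rcases this with h2 | h2
  · exact absurd h1 (not_lt.2 h2)
  · exact h2

lemma lin_of_deriv {x : ℝ → ℝ} {b : ℝ} (h : ∀ t, HasDerivAt x b t) (t : ℝ) :
    x t = x 0 + b * t := by
  have h1 : ∀ t, HasDerivAt (fun t => x t - b * t) 0 t := fun t => by
    simpa using (h t).fun_sub ((hasDerivAt_id t).const_mul b)
  have := is_const_of_deriv_eq_zero (fun t => (h1 t).differentiableAt) (fun t => (h1 t).deriv) t 0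
  simp only [mul_zero, sub_zero] at this
  linarith

lemma exp_of_deriv {w : ℝ → ℝ} {k : ℝ} (h : ∀ t, HasDerivAt w (k * w t) t) (t : ℝ) :
    w t = w 0 * Real.exp (k * t) := by
  have h1 : ∀ t, HasDerivAt (fun t => w t * Real.exp (-k * t)) 0 t := fun t => by
    refine HasDerivAt.congr_deriv ((h t).fun_mul ((hasDerivAt_id t).const_mul (-k)).exp) ?_
    simp only [id]; ring
  have := lin_of_deriv h1 t
  simp only [mul_zero, Real.exp_zero, mul_one, zero_mul, add_zero] at this
  rw [← this, mul_assoc, ← Real.exp_add]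
  simp

/-- orbits of a generator through points of the closure of the graph -/
lemma flow {f : ℝ → ℝ} {a b e c d g : ℝ} (hX : mk7 a b e c d g 0 ∈ Lie (KK f)) {p : E}
    (hp : p ∈ closure (Gr f)) : ∃ x y : ℝ → ℝ, x 0 = p.1 ∧ y 0 = p.2.1 ∧
      (∀ t, exp (t • mk7 a b e c d g 0) p = (x t, y t, 1)) ∧
      (∀ t, ((x t, y t, 1) : E) ∈ closure (Gr f)) ∧
      (∀ t, HasDerivAt x (a * x t + b * y t + e) t) ∧
      (∀ t, HasDerivAt y (c * x t + d * y t + g) t) := by
  set X := mk7 a b e c d g 0 with hXd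
  have h1 : ∀ t : ℝ, exp (t • X) p ∈ closure (Gr f) := fun t => hX t hp
  have h2 : ∀ t : ℝ, exp (t • X) p = ((exp (t • X) p).1, (exp (t • X) p).2.1, 1) := fun t => by
    rw [← cl_third (h1 t)]
  have h3 : ∀ t : ℝ, HasDerivAt (fun t : ℝ => exp (t • X) p) (X (exp (t • X) p)) t := fun t => by
    simpa using (hasDerivAt_exp_smul_const' (𝕂 := ℝ) X t).clm_apply (hasDerivAt_const t p)
  refine ⟨fun t => (exp (t • X) p).1, fun t => (exp (t • X) p).2.1, by simp, by simp, h2,
    fun t => h2 t ▸ h1 t, fun t => ?_, fun t => ?_⟩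
  · refine HasDerivAt.congr_deriv (h3 t).fst ?_
    rw [hXd, mk7_apply, ← hXd, cl_third (h1 t), mul_one]
  · refine HasDerivAt.congr_deriv (h3 t).snd.fst ?_
    rw [hXd, mk7_apply, ← hXd, cl_third (h1 t)]
    simp

lemma caseA {f : ℝ → ℝ} {x0 b1 m n b2 : ℝ} (hc : ContinuousAt f x0) (hb : b1 ≠ 0)
    (hZ : mk7 0 0 b1 m n b2 0 ∈ Lie (KK f)) (s : ℝ) :
    HasDerivAt f ((m * s + n * f s + b2) / b1) s := by
  obtain ⟨x, y, x0', y0, he, -, hx, hy⟩ := flow hZ (gr_mem f x0)
  simp only [zero_mul, zero_add] at hx x0' y0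
  have hxt : ∀ t, x t = x0 + b1 * t := fun t => x0' ▸ lin_of_deriv hx t
  have key : ∀ s, f s = y ((s - x0) / b1) := by
    intro s
    obtain ⟨u, v, u0, -, he', hm, hu, -⟩ := flow hZ (gr_mem f s)
    simp only [zero_mul, zero_add] at hu u0
    set t := (s - x0) / b1 with ht
    have h1 : u (-t) = x0 := by
      rw [lin_of_deriv hu, u0, ht]; field_simp; ring
    have h2 : v (-t) = f x0 := by
      have := cl_cont (hm (-t)) (by simpa [h1] using hc)
      simpa [h1] using this
    have h3 := he' (-t)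
    rw [h1, h2] at h3
    have h4 := he t
    have h5 := congrArg (fun g : E →L[ℝ] E => g (s, f s, 1))
      (exp_mul_exp_neg (mk7 0 0 b1 m n b2 0) t)
    rw [← h3] at h4
    exact congrArg (fun p : E => p.2.1) (h5.symm.trans h4)
  have h5 : HasDerivAt (fun s => (s - x0) / b1) (1 / b1) s :=
    ((hasDerivAt_id s).sub_const x0).div_const b1
  have h6 := (hy ((s - x0) / b1)).comp s h5
  have h7 : f = y ∘ fun s => (s - x0) / b1 := funext key
  rw [← h7, ← key s, hxt] at h6
  refine HasDerivAt.congr_deriv h6 ?_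
  field_simp; ring

lemma caseB {f : ℝ → ℝ} {x0 δ M m n b2 : ℝ} (hM : ∀ s, |s - x0| < δ → |f s| ≤ M)
    (hZ : mk7 0 0 0 m n b2 0 ∈ Lie (KK f)) (s : ℝ) (hs : |s - x0| < δ) :
    m * s + n * f s + b2 = 0 := by
  obtain ⟨x, y, x0', y0, -, hm, hx, hy⟩ := flow hZ (gr_mem f s)
  simp only [zero_mul, zero_add] at hx x0' y0
  have hxt : ∀ t, x t = s := fun t => by rw [lin_of_deriv hx t, x0']; simp
  have hb : ∀ t, |y t| ≤ M := fun t =>
    cl_local (S := {p : E | |p.2.1| ≤ M}) (isClosed_le (by fun_prop) continuous_const) hM (hm t)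
      (by simpa [hxt] using hs)
  simp only [hxt] at hy
  by_contra hne
  rcases eq_or_ne n 0 with rfl | hn
  · simp only [zero_mul, add_zero] at hy hne
    have h1 := lin_of_deriv hy ((2 * M + 1) / (m * s + b2))
    rw [mul_div_cancel₀ _ hne] at h1
    have := abs_le.1 (hb ((2 * M + 1) / (m * s + b2)))
    have := abs_le.1 (hb 0)
    linarith
  · have hw : ∀ t, HasDerivAt (fun t => m * s + n * y t + b2) (n * (m * s + n * y t + b2)) t :=
      fun t => (((hy t).const_mul n).const_add (m * s)).add_const b2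
    set w0 := m * s + n * f s + b2 with hw0
    set T := (2 * |n| * M + 1) / |w0| with hT
    have hw0' : 0 < |w0| := abs_pos.2 hne
    have h1 := exp_of_deriv hw (T / n)
    rw [y0, ← hw0, mul_div_cancel₀ _ hn] at h1
    have h2 : n * (y (T / n) - y 0) = w0 * (Real.exp T - 1) := by rw [y0]; linarith
    have hM0 : 0 ≤ M := (abs_nonneg _).trans (hb 0)
    have hT0 : 0 ≤ T := by positivity
    have h3 := Real.add_one_le_exp T
    have h4 : |y (T / n) - y 0| ≤ 2 * M := by
      have := abs_sub (y (T / n)) (y 0)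
      linarith [hb (T / n), hb 0]
    have h5 := congrArg abs h2
    rw [abs_mul, abs_mul, abs_of_nonneg (a := Real.exp T - 1) (by linarith)] at h5
    have h6 : |w0| * T = 2 * |n| * M + 1 := by rw [hT]; field_simp
    have h7 := mul_le_mul_of_nonneg_left h4 (abs_nonneg n)
    nlinarith

lemma form_of_deriv {f : ℝ → ℝ} {k l : ℝ} (h : ∀ s, HasDerivAt f (k * f s + l) s) :
    ∃ a b k : ℝ, (∀ x, f x = a + b * x) ∨ (∀ x, f x = a + b * Real.exp (k * x)) := by
  rcases eq_or_ne k 0 with rfl | hk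
  · simp only [zero_mul, zero_add] at h
    exact ⟨f 0, l, 0, Or.inl (lin_of_deriv h)⟩
  · have hw : ∀ t, HasDerivAt (fun t => k * f t + l) (k * (k * f t + l)) t :=
      fun t => ((h t).const_mul k).add_const l
    refine ⟨-l / k, (k * f 0 + l) / k, k, Or.inr fun x => ?_⟩
    have := exp_of_deriv hw x
    field_simp
    linarith

lemma deriv_zero {g : ℝ → ℝ} {d s : ℝ} (h0 : ∀ s, g s = 0) (h : HasDerivAt g d s) : d = 0 := by
  have : g = fun _ => 0 := funext h0
  subst this
  exact h.unique (hasDerivAt_const s 0)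

lemma caseC {f : ℝ → ℝ} {m k l A12 B1 A21 A22 B2 : ℝ}
    (hf : ∀ s, HasDerivAt f (m * s + k * f s + l) s) (hA : A12 ≠ 0)
    (hX : mk7 0 A12 B1 A21 A22 B2 0 ∈ Lie (KK f)) : ∃ a b : ℝ, ∀ x, f x = a + b * x := by
  set u : ℝ → ℝ := fun s => m * s + k * f s + l with hu
  set w : ℝ → ℝ := fun s => m + k * u s with hw
  have du : ∀ s, HasDerivAt u (w s) s := fun s => by
    refine HasDerivAt.congr_deriv
      ((((hasDerivAt_id s).const_mul m).fun_add ((hf s).const_mul k)).add_const l) ?_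
    simp [hw, hu]
  have dw : ∀ s, HasDerivAt w (k * w s) s := fun s => ((du s).const_mul k).const_add m
  have E1 : ∀ s, A21 * s + A22 * f s + B2 - u s * (A12 * f s + B1) = 0 := by
    intro s
    obtain ⟨x, y, x0', y0, -, hm, hx, hy⟩ := flow hX (gr_mem f s)
    simp only [zero_mul, zero_add] at hx x0' y0
    have h1 : y = f ∘ x := funext fun t => cl_cont (hm t) (hf _).continuousAt
    have h2 := (hf (x 0)).comp 0 (hx 0)
    rw [← h1] at h2
    have := h2.unique (hy 0)
    rw [x0', y0] at this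
    simp only [hu]; linarith
  have E2 : ∀ s, A21 + A22 * u s - w s * (A12 * f s + B1) - A12 * u s ^ 2 = 0 := by
    intro s
    have := deriv_zero E1 (((((hasDerivAt_id s).const_mul A21).fun_add
      ((hf s).const_mul A22)).add_const B2).fun_sub
      ((du s).fun_mul (((hf s).const_mul A12).add_const B1)))
    simp only [hu] at this ⊢
    linarith
  have E3 : ∀ s, w s * (A22 - 3 * A12 * u s - k * (A12 * f s + B1)) = 0 := by
    intro s
    have := deriv_zero E2 (((((du s).const_mul A22).const_add A21).fun_sub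
      ((dw s).fun_mul (((hf s).const_mul A12).add_const B1))).fun_sub
      (((du s).fun_pow 2).const_mul A12))
    simp only [hu] at this ⊢
    push_cast at this
    simp only [pow_one] at this
    linarith
  have hw0 : w 0 = 0 := by
    by_contra hne
    have hne' : ∀ s, w s ≠ 0 := fun s => by
      rw [exp_of_deriv dw s]; exact mul_ne_zero hne (Real.exp_pos _).ne'
    have E4 : ∀ s, A22 - 3 * A12 * u s - k * (A12 * f s + B1) = 0 :=
      fun s => (mul_eq_zero.1 (E3 s)).resolve_left (hne' s)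
    have E5 : ∀ s, 3 * w s + k * u s = 0 := by
      intro s
      have := deriv_zero E4 ((((du s).const_mul (3 * A12)).const_sub A22).fun_sub
        ((((hf s).const_mul A12).add_const B1).const_mul k))
      refine mul_left_cancel₀ hA ?_
      simp only [hu] at this ⊢
      linarith
    have E6 := deriv_zero E5 (((dw 0).const_mul 3).fun_add ((du 0).const_mul k))
    have hk : k = 0 := by
      have : k * w 0 = 0 := by linarith
      exact (mul_eq_zero.1 this).resolve_right hne
    have := E5 0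
    rw [hk] at this
    exact hne (by linarith)
  have hw1 : ∀ s, HasDerivAt u 0 s := fun s => by
    have := du s
    rwa [exp_of_deriv dw s, hw0, zero_mul] at this
  have hu1 : ∀ s, HasDerivAt f (u 0) s := fun s => by
    have h1 := lin_of_deriv hw1 s
    rw [zero_mul, add_zero] at h1
    rw [← h1]; exact hf s
  exact ⟨f 0, u 0, lin_of_deriv hu1⟩

lemma two_coef {x0 δ p q : ℝ} (hδ : 0 < δ) (h : ∀ s, |s - x0| < δ → p * s + q = 0) :
    p = 0 ∧ q = 0 := by
  have h1 := h x0 (by simpa using hδ)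
  have h2 := h (x0 + δ / 2) (by rw [add_sub_cancel_left, abs_of_pos (by linarith)]; linarith)
  have : p * δ = 0 := by linarith
  have hp : p = 0 := (mul_eq_zero.1 this).resolve_right hδ.ne'
  exact ⟨hp, by simpa [hp] using h1⟩

lemma caseD {f : ℝ → ℝ} {x0 δ m q n A12 B1 A21 A22 B2 : ℝ} (hδ : 0 < δ)
    (hf : ∀ s, |s - x0| < δ → f s = m * s + q) (hn : n ≠ 0) (hA : A12 ≠ 0)
    (hZ : mk7 0 0 0 (-(n * m)) n (-(n * q)) 0 ∈ Lie (KK f))
    (hX : mk7 0 A12 B1 A21 A22 B2 0 ∈ Lie (KK f)) (s : ℝ) : f s = m * s + q := by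
  have hcl : ∀ p ∈ closure (Gr f), |p.1 - x0| < δ → p.2.1 = m * p.1 + q := fun p hp h1 =>
    cl_local (S := {p : E | p.2.1 = m * p.1 + q}) (isClosed_eq (by fun_prop) (by fun_prop)) hf hp h1
  have tang : ∀ s, |s - x0| < δ →
      (A21 + A22 * m - m ^ 2 * A12) * s + (A22 * q + B2 - m * (A12 * q + B1)) = 0 := by
    intro s hs
    obtain ⟨x, y, x0', y0, -, hm, hx, hy⟩ := flow hX (gr_mem f s)
    simp only [zero_mul, zero_add] at hx x0' y0
    have h1 : ∀ᶠ t in 𝓝 (0 : ℝ), |x t - x0| < δ :=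
      (((hx 0).continuousAt.sub continuousAt_const).abs).eventually_lt continuousAt_const
        (by simpa [x0'] using hs)
    have h2 : y =ᶠ[𝓝 0] fun t => m * x t + q := h1.mono fun t ht => hcl _ (hm t) ht
    have h3 := ((((hx 0).const_mul m).add_const q).congr_of_eventuallyEq h2).unique (hy 0)
    rw [x0', y0, hf s hs] at h3
    linarith
  obtain ⟨t1, t2⟩ := two_coef hδ tang
  have hW := Lie.bracket (KK_closed f) hX hZ
  set γ := n * A12 with hγ
  have hγ0 : γ ≠ 0 := mul_ne_zero hn hA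
  have e : mk7 0 A12 B1 A21 A22 B2 0 * mk7 0 0 0 (-(n * m)) n (-(n * q)) 0 -
      mk7 0 0 0 (-(n * m)) n (-(n * q)) 0 * mk7 0 A12 B1 A21 A22 B2 0 =
      mk7 (-(m * γ)) γ (-(q * γ)) (-(m ^ 2 * γ)) (m * γ) (-(m * q * γ)) 0 := by
    refine ContinuousLinearMap.ext fun p => ?_
    simp only [sub_apply, mul_apply_eq_comp, mk7_apply, hγ]
    ext
    · simp; ring
    · simp only [Prod.snd_sub, Prod.fst_sub]
      linear_combination (-n * p.1) * t1 + (-n * p.2.2) * t2
    · simp
  rw [e] at hW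
  obtain ⟨x, y, x0', y0, -, hm, hx, hy⟩ := flow hW (gr_mem f s)
  simp only at x0' y0
  have hφ : ∀ t, HasDerivAt (fun t => y t - m * x t - q) 0 t := fun t => by
    refine HasDerivAt.congr_deriv (((hy t).fun_sub ((hx t).const_mul m)).sub_const q) ?_
    ring
  have hφ' : ∀ t, y t - m * x t - q = f s - m * s - q := fun t => by
    have := lin_of_deriv hφ t
    simpa [x0', y0] using this
  by_contra hne
  have hφ0 : f s - m * s - q ≠ 0 := fun h => hne (by linarith)
  have hx' : ∀ t, HasDerivAt x (γ * (f s - m * s - q)) t := fun t => by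
    refine HasDerivAt.congr_deriv (hx t) ?_
    rw [← hφ' t]; ring
  set t := (x0 - s) / (γ * (f s - m * s - q)) with ht
  have h1 : x t = x0 := by
    rw [lin_of_deriv hx' t, x0', ht, mul_div_cancel₀ _ (mul_ne_zero hγ0 hφ0)]; ring
  have h2 := hcl _ (hm t) (by simpa [h1] using hδ)
  have h3 := hφ' t
  simp only at h2
  exact hφ0 (by linarith)

end Pool.Agent.H.MP_1755e3_an
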