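import Mathlib
import Pool.Agent.H.MP_1755e3_an.B

namespace Pool.Agent.H.MP_1755e3_an

open NormedSpace Filter Topology Set

/-- vertical rigidity in coordinates -/
def Rig (f : ℝ → ℝ) : Prop := ∀ c : ℝ, 0 < c → ∃ a b d t1 t2 : ℝ, a ^ 2 + b ^ 2 = 1 ∧ d ^ 2 = 1 ∧
  ∀ x y, y = f x ↔ b * x + d * a * c * y + t2 = f (a * x - d * b * c * y + t1)

lemma not_countable_Ioi : ¬ (Ioi (0 : ℝ)).Countable := fun h => by
  have := h.measure_zero MeasureTheory.volume
  simp at this

lemma caseE {f : ℝ → ℝ} (hR : Rig f) {x0 δ q n b2 : ℝ} (hδ : 0 < δ)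
    (hf : ∀ s, |s - x0| < δ → f s = q) (hn : n ≠ 0) (hq : n * q + b2 = 0)
    (hZ : mk7 0 0 0 0 n b2 0 ∈ Lie (KK f)) (s : ℝ) : f s = q := by
  have step : ∀ c : ℝ, 0 < c → ∃ a e t : ℝ, (a = 1 ∨ a = -1) ∧ e ^ 2 = 1 ∧
      ∀ x, f (a * x + t) - q = e * c * (f x - q) := by
    intro c hc
    obtain ⟨a, b, d, t1, t2, hab, hd, h⟩ := hR c hc
    have h1 : ∀ x, |x - x0| < δ → f (a * x + (t1 - d * b * c * q)) = b * x + (d * a * c * q + t2) := by
      intro x hx
      have := (h x q).1 (hf x hx).symm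
      rw [show a * x + (t1 - d * b * c * q) = a * x - d * b * c * q + t1 by ring, ← this]; ring
    set τ := t1 - d * b * c * q
    set κ := d * a * c * q + t2
    have ha : a ≠ 0 := by
      rintro rfl
      obtain ⟨h2, -⟩ := two_coef (p := b) (q := κ - f τ) hδ fun x hx => by
        have := h1 x hx
        rw [zero_mul, zero_add] at this
        linarith
      rw [h2] at hab; norm_num at hab
    have ha' : 0 < |a| := abs_pos.2 ha
    have h3 : ∀ s, |s - (a * x0 + τ)| < |a| * δ → |f s| ≤ |b| * (|x0| + δ) + |κ| := by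
      intro s hs
      have hx : |(s - τ) / a - x0| < δ := by
        rw [show (s - τ) / a - x0 = (s - (a * x0 + τ)) / a by field_simp; ring, abs_div,
          div_lt_iff₀ ha']
        linarith
      have := h1 _ hx
      rw [mul_div_cancel₀ _ ha, sub_add_cancel] at this
      rw [this]
      refine (abs_add_le _ _).trans ?_
      rw [abs_mul]
      have h4 : |(s - τ) / a| ≤ |x0| + δ := by
        have := abs_sub_abs_le_abs_sub ((s - τ) / a) x0
        linarith
      gcongr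
    obtain ⟨hb, hκ⟩ := two_coef (p := b) (q := κ - q) hδ fun x hx => by
      have h5 := caseB h3 hZ (a * x + τ) (by
        rw [show a * x + τ - (a * x0 + τ) = a * (x - x0) by ring, abs_mul]; gcongr)
      rw [h1 x hx] at h5
      refine mul_left_cancel₀ hn ?_
      linarith
    subst hb
    have ha2 : a ^ 2 = 1 := by simpa using hab
    refine ⟨a, d * a, t1, sq_eq_one_iff.1 ha2, by rw [mul_pow, hd, ha2, one_mul],
      fun x => ?_⟩
    have := (h x (f x)).1 rfl
    simp only [zero_mul, zero_add, mul_zero, sub_zero] at this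
    rw [← this]
    simp only [κ] at hκ
    linarith
  choose! a e t ha he h using step
  have hr : ∀ c : ℝ, ∃ r : ℚ, |t c - r| < δ / 2 := fun c => exists_rat_near _ (by linarith)
  choose r hr using hr
  have : ∃ c ∈ Ioi (0 : ℝ), ∃ c' ∈ Ioi (0 : ℝ), c ≠ c' ∧ a c = a c' ∧ r c = r c' := by
    by_contra hcon
    push Not at hcon
    refine not_countable_Ioi (countable_of_injective_of_countable_image
      (f := fun c => (decide (a c = 1), r c)) ?_ (to_countable _))
    intro c hc c' hc' hcc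
    by_contra hne
    simp only [Prod.mk.injEq, decide_eq_decide] at hcc
    refine hcon c hc c' hc' hne ?_ hcc.2
    rcases ha c hc with h1 | h1 <;> rcases ha c' hc' with h2 | h2
    · rw [h1, h2]
    · have := hcc.1.1 h1; linarith
    · have := hcc.1.2 h2; linarith
    · rw [h1, h2]
  obtain ⟨c, hc, c', hc', hne, haa, hrr⟩ := this
  have hc0 : 0 < c := hc
  have hc0' : 0 < c' := hc'
  set η := t c - t c' with hη
  have hη1 : |η| < δ := by
    have h1 := abs_lt.1 (hr c)
    have h2 := abs_lt.1 (hr c')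
    rw [hrr] at h1
    rw [abs_lt]; constructor <;> linarith
  have e0 : e c * c ≠ 0 := mul_ne_zero (by intro h0; have := he c hc; rw [h0] at this; simp at this)
    hc0.ne'
  have e0' : e c' * c' ≠ 0 :=
    mul_ne_zero (by intro h0; have := he c' hc'; rw [h0] at this; simp at this) hc0'.ne'
  rcases eq_or_ne η 0 with h0 | h0
  · have h1 := h c hc s
    have h2 := h c' hc' s
    rw [haa, show t c = t c' by linarith, h2] at h1
    have h3 : (c ^ 2 - c' ^ 2) * (f s - q) ^ 2 = 0 := by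
      have h4 := congrArg (· ^ 2) h1
      simp only [mul_pow, he c hc, he c' hc'] at h4
      linarith
    rcases mul_eq_zero.1 h3 with h4 | h4
    · exact absurd ((sq_eq_sq₀ hc0.le hc0'.le).1 (by linarith)) hne
    · have := pow_eq_zero_iff (two_ne_zero) |>.1 h4
      linarith
  · have a2 : a c * a c = 1 := by rcases ha c hc with h1 | h1 <;> rw [h1] <;> norm_num
    have shift : ∀ u, f u - q = 0 ↔ f (u + η) - q = 0 := by
      intro u
      have h1 := h c hc (a c * (u - t c'))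
      have h2 := h c' hc' (a c * (u - t c'))
      rw [← haa, ← mul_assoc, a2, one_mul, sub_add_cancel] at h2
      rw [← mul_assoc, a2, one_mul, show u - t c' + t c = u + η by rw [hη]; ring] at h1
      rw [h1, h2, mul_eq_zero_iff_left e0, mul_eq_zero_iff_left e0']
    have shiftn : ∀ (k : ℤ) u, f u - q = 0 → f (u + k * η) - q = 0 := by
      intro k
      induction k with
      | zero => simp
      | succ k ih =>
        intro u hu
        have := (shift _).1 (ih u hu)
        rwa [show u + ((k : ℤ) : ℝ) * η + η = u + (((k : ℤ) + 1 : ℤ) : ℝ) * η by push_cast; ring]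
          at this
      | pred k ih =>
        intro u hu
        refine (shift _).2 ?_
        have := ih u hu
        rwa [show u + ((-(k : ℤ) : ℤ) : ℝ) * η = u + ((-(k : ℤ) - 1 : ℤ) : ℝ) * η + η by
          push_cast; ring] at this
    set k := round ((s - x0) / η) with hk
    have h1 := abs_sub_round ((s - x0) / η)
    rw [← hk, show (s - x0) / η - k = (s - k * η - x0) / η by field_simp; ring, abs_div,
      div_le_iff₀ (abs_pos.2 h0)] at h1
    have h2 := hf (s - k * η) (by linarith [abs_pos.2 h0])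
    have := shiftn k (s - k * η) (by linarith)
    rw [sub_add_cancel] at this
    linarith

lemma countable_isolated {Y : Type*} [TopologicalSpace Y] [SecondCountableTopology Y]
    (s : Set ℝ) (u : ℝ → Y) :
    {c ∈ s | ¬ ∃ x : ℕ → ℝ, (∀ n, x n ∈ s ∧ x n ≠ c) ∧
      Tendsto (fun n => u (x n)) atTop (𝓝 (u c))}.Countable := by
  have key : ∀ c ∈ {c ∈ s | ¬ ∃ x : ℕ → ℝ, (∀ n, x n ∈ s ∧ x n ≠ c) ∧
      Tendsto (fun n => u (x n)) atTop (𝓝 (u c))}, ∃ B ∈ TopologicalSpace.countableBasis Y,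
        u c ∈ B ∧ ∀ c' ∈ s, c' ≠ c → u c' ∉ B := by
    rintro c ⟨-, hc⟩
    have h1 : u c ∉ closure (u '' (s \ {c})) := by
      intro h
      obtain ⟨y, hy, hl⟩ := mem_closure_iff_seq_limit.1 h
      choose x hx hx' using hy
      exact hc ⟨x, fun n => ⟨(hx n).1, (hx n).2⟩, by simpa [hx'] using hl⟩
    obtain ⟨B, hB, h2, h3⟩ := (TopologicalSpace.isBasis_countableBasis Y).exists_subset_of_mem_open
      (u := (closure (u '' (s \ {c})))ᶜ) h1 isClosed_closure.isOpen_compl
    exact ⟨B, hB, h2, fun c' hc' hne h4 => h3 h4 (subset_closure ⟨c', ⟨hc', hne⟩, rfl⟩)⟩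
  choose! B hB h1 h2 using key
  refine MapsTo.countable_of_injOn (f := B) hB ?_ (TopologicalSpace.countable_countableBasis Y)
  intro c hc c' hc' h
  by_contra hne
  exact h2 c' hc' c hc.1 hne (h ▸ h1 c hc)

lemma exists_fields {f : ℝ → ℝ} (hR : Rig f) : ∃ S : Set ℝ, S.Countable ∧ ∀ c : ℝ, 0 < c → c ∉ S →
    ∃ B1 A21 A22 B2 : ℝ, mk7 0 (-(c ^ 2 * A21)) B1 A21 A22 B2 0 ∈ Lie (KK f) ∧
      mk7 0 (-(c ^ 2 * A21)) B1 A21 A22 B2 0 ≠ 0 := by
  choose! a b d t1 t2 hab hd h using hR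
  set P : ℝ → E →L[ℝ] E := fun c =>
    mk7 (a c) (-(d c * b c * c)) (t1 c) (b c) (d c * a c * c) (t2 c) 1 with hP
  set Q : ℝ → E →L[ℝ] E := fun c =>
    mk7 (a c) (b c) (-(a c * t1 c + b c * t2 c)) (-(d c * b c) / c) (d c * a c / c)
      ((d c * b c * t1 c - d c * a c * t2 c) / c) 1 with hQ
  have QP : ∀ c, 0 < c → Q c * P c = 1 := by
    intro c hc
    refine ContinuousLinearMap.ext fun p => ?_
    simp only [hP, hQ, mul_apply_eq_comp, mk7_apply, one_apply_eq_self]
    ext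
    · simp only; linear_combination p.1 * hab c hc
    · simp only; field_simp
      linear_combination (c * p.2.1 * d c ^ 2) * hab c hc + (c * p.2.1) * hd c hc
    · simp
  have PQ : ∀ c, 0 < c → P c * Q c = 1 := by
    intro c hc
    refine ContinuousLinearMap.ext fun p => ?_
    simp only [hP, hQ, mul_apply_eq_comp, mk7_apply, one_apply_eq_self]
    ext
    · simp only; field_simp
      linear_combination (p.1 - t1 c * p.2.2) * hab c hc +
        (b c ^ 2 * (p.1 - t1 c * p.2.2) - a c * b c * (p.2.1 - t2 c * p.2.2)) * hd c hc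
    · simp only; field_simp
      linear_combination (p.2.1 - t2 c * p.2.2) * hab c hc +
        (a c ^ 2 * (p.2.1 - t2 c * p.2.2) - a c * b c * (p.1 - t1 c * p.2.2)) * hd c hc
    · simp
  have Piff : ∀ c, 0 < c → ∀ p : E, p ∈ Gr f ↔ P c p ∈ Gr f := by
    intro c hc p
    have gr : ∀ p : E, p ∈ Gr f ↔ p.2.1 = f p.1 ∧ p.2.2 = 1 := fun p =>
      ⟨by rintro ⟨x, rfl⟩; exact ⟨rfl, rfl⟩, fun h => ⟨p.1, by ext <;> simp [h.1, h.2]⟩⟩
    rw [gr, gr]
    simp only [hP, mk7_apply, one_mul]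
    refine and_congr_left fun h3 => ?_
    rw [h c hc, h3]
    simp only [mul_one, sub_eq_add_neg, neg_mul]
  have PK : ∀ c, 0 < c → P c ∈ KK f := fun c hc => mem_KK fun p hp => (Piff c hc p).1 hp
  have QK : ∀ c, 0 < c → Q c ∈ KK f := fun c hc => mem_KK fun p hp => (Piff c hc _).2 (by
    have := congrArg (fun g : E →L[ℝ] E => g p) (PQ c hc)
    simp only [mul_apply_eq_comp, one_apply_eq_self] at this
    rwa [this])
  refine ⟨_, countable_isolated (Ioi 0) (fun c => (P c, Q c)), fun c hc hS => ?_⟩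
  simp only [mem_ofPred_eq, mem_Ioi, hc, true_and, not_not] at hS
  obtain ⟨x, hx, hl⟩ := hS
  have l1 : Tendsto (fun n => P (x n)) atTop (𝓝 (P c)) := (continuous_fst.tendsto _).comp hl
  have l2 : Tendsto (fun n => Q (x n)) atTop (𝓝 (Q c)) := (continuous_snd.tendsto _).comp hl
  have g1 : ∀ n, ((Q c * P (x n)) (1, 0, 0)).1 ^ 2 +
      c ^ 2 * ((Q c * P (x n)) (1, 0, 0)).2.1 ^ 2 = 1 := by
    intro n
    simp only [hP, hQ, mul_apply_eq_comp, mk7_apply]
    field_simp
    linear_combination (a c * b (x n) - b c * a (x n)) ^ 2 * hd c hc +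
      (a (x n) ^ 2 + b (x n) ^ 2) * hab c hc + hab (x n) (hx n).1
  have g2 : ∀ n, ((Q c * P (x n)) (1, 0, 0)).1 * ((Q c * P (x n)) (0, 1, 0)).1 +
      c ^ 2 * (((Q c * P (x n)) (1, 0, 0)).2.1 * ((Q c * P (x n)) (0, 1, 0)).2.1) = 0 := by
    intro n
    simp only [hP, hQ, mul_apply_eq_comp, mk7_apply]
    field_simp
    linear_combination (d (x n) * x n * (a c * b (x n) - b c * a (x n)) *
      (b c * b (x n) + a c * a (x n))) * hd c hc
  have g3 : ∀ n, ((Q c * P (x n)) (0, 1, 0)).1 ^ 2 +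
      c ^ 2 * ((Q c * P (x n)) (0, 1, 0)).2.1 ^ 2 = x n ^ 2 := by
    intro n
    simp only [hP, hQ, mul_apply_eq_comp, mk7_apply]
    field_simp
    linear_combination x n ^ 2 * ((d (x n) ^ 2 * (b c * b (x n) + a c * a (x n)) ^ 2) * hd c hc) +
      x n ^ 2 * (d (x n) ^ 2 * (a (x n) ^ 2 + b (x n) ^ 2) * hab c hc) +
      x n ^ 2 * (d (x n) ^ 2 * hab (x n) (hx n).1) + x n ^ 2 * hd (x n) (hx n).1
  obtain ⟨X, hX, hX0, φ, e, he, he0, hl⟩ := exists_gen (KK f) (KK_closed f)
    (fun n => Q c * P (x n)) (fun n => Q (x n) * P c)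
    (fun n => mul_mem (QK c hc) (PK _ (hx n).1)) (fun n => mul_mem (QK _ (hx n).1) (PK c hc))
    (fun n => by
      rw [mul_assoc, ← mul_assoc (P c), PQ c hc, one_mul, QP _ (hx n).1])
    (by simpa [QP c hc] using l1.const_mul (Q c)) (by simpa [QP c hc] using l2.mul_const (P c))
    (fun n h1 => by
      have := g3 n
      rw [h1] at this
      simp only [one_apply_eq_self] at this
      exact (hx n).2 ((sq_eq_sq₀ (hx n).1.le hc.le).1 (by linarith)))
  set Y : ℕ → E →L[ℝ] E := fun n => (e n)⁻¹ • (Q c * P (x (φ n)) - 1) with hY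
  have hg : ∀ n p, (Q c * P (x (φ n))) p = p + e n • Y n p := by
    intro n p
    simp only [hY, smul_apply, sub_apply, one_apply_eq_self, smul_smul,
      mul_inv_cancel₀ (he n).ne', one_smul]
    abel
  have ev : ∀ p : E, Tendsto (fun n => Y n p) atTop (𝓝 (X p)) := fun p =>
    ((continuous_eval_const p).tendsto X).comp hl
  have c1 : ∀ p : E, Tendsto (fun n => (Y n p).1) atTop (𝓝 (X p).1) := fun p =>
    (continuous_fst.tendsto _).comp (ev p)
  have c2 : ∀ p : E, Tendsto (fun n => (Y n p).2.1) atTop (𝓝 (X p).2.1) := fun p =>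
    ((continuous_fst.comp continuous_snd).tendsto _).comp (ev p)
  have c3 : ∀ p : E, Tendsto (fun n => (Y n p).2.2) atTop (𝓝 (X p).2.2) := fun p =>
    ((continuous_snd.comp continuous_snd).tendsto _).comp (ev p)
  have X3 : ∀ p, (X p).2.2 = 0 := by
    intro p
    refine tendsto_nhds_unique (c3 p) (tendsto_const_nhds.congr fun n => ?_)
    simp [hY, hP, hQ]
  have X1 : (X (1, 0, 0)).1 = 0 := by
    have t := ((c1 (1, 0, 0)).const_mul 2).add (he0.mul
      (((c1 (1, 0, 0)).pow 2).add (((c2 (1, 0, 0)).pow 2).const_mul (c ^ 2))))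
    have := tendsto_nhds_unique t (tendsto_const_nhds (x := (0 : ℝ)).congr fun n => ?_)
    · linarith
    · have := g1 (φ n)
      rw [hg] at this
      simp only [Prod.fst_add, Prod.snd_add, Prod.smul_fst, Prod.smul_snd, smul_eq_mul] at this
      refine mul_left_cancel₀ (he n).ne' ?_
      linarith
  have X2 : (X (0, 1, 0)).1 = -(c ^ 2 * (X (1, 0, 0)).2.1) := by
    have t := ((c1 (0, 1, 0)).add ((c2 (1, 0, 0)).const_mul (c ^ 2))).add (he0.mul
      (((c1 (1, 0, 0)).mul (c1 (0, 1, 0))).add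
        (((c2 (1, 0, 0)).mul (c2 (0, 1, 0))).const_mul (c ^ 2))))
    have := tendsto_nhds_unique t (tendsto_const_nhds (x := (0 : ℝ)).congr fun n => ?_)
    · linarith
    · have := g2 (φ n)
      rw [hg, hg] at this
      simp only [Prod.fst_add, Prod.snd_add, Prod.smul_fst, Prod.smul_snd, smul_eq_mul] at this
      refine mul_left_cancel₀ (he n).ne' ?_
      linarith
  have hXe := eq_mk7 X X3
  rw [X1, X2] at hXe
  exact ⟨_, _, _, _, hXe ▸ hX, hXe ▸ hX0⟩

lemma mk7_lin (u v a b e c d g a' b' e' c' d' g' : ℝ) :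
    u • mk7 a b e c d g 0 + v • mk7 a' b' e' c' d' g' 0 =
      mk7 (u * a + v * a') (u * b + v * b') (u * e + v * e') (u * c + v * c') (u * d + v * d')
        (u * g + v * g') 0 := by
  refine ContinuousLinearMap.ext fun p => ?_
  ext <;> simp <;> ring

theorem main {f : ℝ → ℝ} (hR : Rig f) {x0 : ℝ} (hc : ContinuousAt f x0) :
    ∃ a b k : ℝ, (∀ x, f x = a + b * x) ∨ (∀ x, f x = a + b * Real.exp (k * x)) := by
  obtain ⟨δ, hδ, hM⟩ : ∃ δ > 0, ∀ s, |s - x0| < δ → |f s| ≤ |f x0| + 1 := by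
    obtain ⟨δ, hδ, h⟩ := Metric.continuousAt_iff.1 hc 1 one_pos
    refine ⟨δ, hδ, fun s hs => ?_⟩
    have h1 := h (x := s) hs
    rw [Real.dist_eq] at h1
    have := abs_sub_abs_le_abs_sub (f s) (f x0)
    linarith
  have vert : ∀ B1 A22 B2 : ℝ, mk7 0 0 B1 0 A22 B2 0 ∈ Lie (KK f) → mk7 0 0 B1 0 A22 B2 0 ≠ 0 →
      ∃ a b k : ℝ, (∀ x, f x = a + b * x) ∨ (∀ x, f x = a + b * Real.exp (k * x)) := by
    intro B1 A22 B2 hZ hZ0
    rcases eq_or_ne B1 0 with rfl | hB
    · have h1 := caseB hM hZ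
      have hn : A22 ≠ 0 := by
        rintro rfl
        have := h1 x0 (by simpa using hδ)
        simp only [zero_mul, zero_add] at this
        subst this
        exact hZ0 (ContinuousLinearMap.ext fun p => by ext <;> simp)
      refine ⟨-B2 / A22, 0, 0, Or.inl fun x => ?_⟩
      rw [zero_mul, add_zero]
      refine caseE (x0 := x0) hR hδ (fun s hs => ?_) hn (by field_simp; ring) hZ x
      have := h1 s hs
      field_simp; linarith
    · refine form_of_deriv (k := A22 / B1) (l := B2 / B1) fun s => ?_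
      refine HasDerivAt.congr_deriv (caseA hc hB hZ s) ?_
      field_simp; ring
  obtain ⟨S, hS, h⟩ := exists_fields hR
  have hinf : (Ioi (0 : ℝ) \ S).Infinite := fun hfin =>
    not_countable_Ioi ((hfin.countable.union hS).mono (by intro x hx; by_cases x ∈ S <;> simp [*]))
  obtain ⟨c0, ⟨hc0, hc0'⟩, c1, ⟨hc1, hc1'⟩, hne⟩ := hinf.nontrivial
  obtain ⟨B1, A21, A22, B2, hX, hX0⟩ := h c0 hc0 hc0'
  obtain ⟨B1', A21', A22', B2', hY, hY0⟩ := h c1 hc1 hc1'
  have p0 : 0 < c0 := hc0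
  have p1 : 0 < c1 := hc1
  rcases eq_or_ne A21 0 with rfl | hA
  · simp only [mul_zero, neg_zero] at hX hX0
    exact vert _ _ _ hX hX0
  rcases eq_or_ne A21' 0 with rfl | hA'
  · simp only [mul_zero, neg_zero] at hY hY0
    exact vert _ _ _ hY hY0
  have hZ := Lie.add (KK_closed f) (Lie.smul hX (c1 ^ 2 * A21')) (Lie.smul hY (-(c0 ^ 2 * A21)))
  rw [mk7_lin, show c1 ^ 2 * A21' * -(c0 ^ 2 * A21) + -(c0 ^ 2 * A21) * -(c1 ^ 2 * A21') = 0 by ring,
    mul_zero, mul_zero, add_zero] at hZ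
  set b1 := c1 ^ 2 * A21' * B1 + -(c0 ^ 2 * A21) * B1'
  set m := c1 ^ 2 * A21' * A21 + -(c0 ^ 2 * A21) * A21' with hm
  set n := c1 ^ 2 * A21' * A22 + -(c0 ^ 2 * A21) * A22'
  set b2 := c1 ^ 2 * A21' * B2 + -(c0 ^ 2 * A21) * B2'
  have hA12 : -(c0 ^ 2 * A21) ≠ 0 := neg_ne_zero.2 (mul_ne_zero (by positivity) hA)
  have hm0 : m ≠ 0 := by
    rw [hm, show c1 ^ 2 * A21' * A21 + -(c0 ^ 2 * A21) * A21' = (c1 ^ 2 - c0 ^ 2) * (A21 * A21') by
      ring]
    refine mul_ne_zero (fun h0 => hne ?_) (mul_ne_zero hA hA')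
    exact (sq_eq_sq₀ p0.le p1.le).1 (by linarith)
  rcases eq_or_ne b1 0 with hb | hb
  · rw [hb] at hZ
    have h1 := caseB hM hZ
    have hn : n ≠ 0 := by
      intro h0
      refine hm0 (two_coef (x0 := x0) (q := b2) hδ fun s hs => ?_).1
      have := h1 s hs
      rw [h0] at this
      linarith
    refine ⟨-b2 / n, -m / n, 0, Or.inl fun x => ?_⟩
    rw [add_comm]
    refine caseD (x0 := x0) hδ (fun s hs => ?_) hn hA12 ?_ hX x
    · have := h1 s hs
      field_simp; linarith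
    · convert hZ using 2 <;> field_simp
  · obtain ⟨a, b, hab⟩ := caseC (m := m / b1) (k := n / b1) (l := b2 / b1) (fun s => by
      refine HasDerivAt.congr_deriv (caseA hc hb hZ s) ?_
      field_simp) hA12 hX
    exact ⟨a, b, 0, Or.inl hab⟩

lemma rig_of_iso {f : ℝ → ℝ}
    (h : ∀ c : ℝ, 0 < c → ∃ φ : EuclideanSpace ℝ (Fin 2) ≃ᵢ EuclideanSpace ℝ (Fin 2),
      φ '' Set.range (fun x : ℝ => (WithLp.toLp 2 ![x, c * f x] : EuclideanSpace ℝ (Fin 2)))
        = Set.range (fun x : ℝ => (WithLp.toLp 2 ![x, f x] : EuclideanSpace ℝ (Fin 2)))) :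
    Rig f := by
  intro c hc
  obtain ⟨φ, hφ⟩ := h c hc
  set L := φ.toRealLinearIsometryEquiv with hL
  set u := L (WithLp.toLp 2 ![1, 0]) with hu
  set v := L (WithLp.toLp 2 ![0, 1]) with hv
  have hφL : ∀ x y : ℝ, φ (WithLp.toLp 2 ![x, y]) = x • u + y • v + φ 0 := by
    intro x y
    have h1 : (WithLp.toLp 2 ![x, y] : EuclideanSpace ℝ (Fin 2)) =
        x • WithLp.toLp 2 ![1, 0] + y • WithLp.toLp 2 ![0, 1] := by
      ext i; fin_cases i <;> simp
    have h2 := φ.toRealLinearIsometryEquiv_apply (WithLp.toLp 2 ![x, y])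
    rw [← hL] at h2
    rw [hu, hv, ← map_smul, ← map_smul, ← map_add, ← h1, h2]
    abel
  have i1 : u 0 ^ 2 + u 1 ^ 2 = 1 := by
    have := L.inner_map_map (WithLp.toLp 2 ![1, 0]) (WithLp.toLp 2 ![1, 0])
    rw [← hu] at this
    simp only [PiLp.inner_apply, Fin.sum_univ_two] at this
    simpa using this
  have i2 : v 0 ^ 2 + v 1 ^ 2 = 1 := by
    have := L.inner_map_map (WithLp.toLp 2 ![0, 1]) (WithLp.toLp 2 ![0, 1])
    rw [← hv] at this
    simp only [PiLp.inner_apply, Fin.sum_univ_two] at this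
    simpa using this
  have i3 : v 0 * u 0 + v 1 * u 1 = 0 := by
    have := L.inner_map_map (WithLp.toLp 2 ![1, 0]) (WithLp.toLp 2 ![0, 1])
    rw [← hu, ← hv] at this
    simp only [PiLp.inner_apply, Fin.sum_univ_two] at this
    simpa using this
  set d := u 0 * v 1 - u 1 * v 0 with hd
  have j1 : v 0 = -(d * u 1) := by rw [hd]; linear_combination (-v 0) * i1 + u 0 * i3
  have j2 : v 1 = d * u 0 := by rw [hd]; linear_combination (-v 1) * i1 + u 1 * i3
  refine ⟨u 0, u 1, d, φ 0 0, φ 0 1, i1, ?_, fun x y => ?_⟩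
  · rw [hd]; linear_combination (v 0 ^ 2 + v 1 ^ 2) * i1 + i2 - (v 0 * u 0 + v 1 * u 1) * i3
  have c0 : φ (WithLp.toLp 2 ![x, c * y]) 0 = u 0 * x - d * u 1 * c * y + φ 0 0 := by
    rw [hφL]; simp only [PiLp.add_apply, PiLp.smul_apply, smul_eq_mul]; rw [j1]; ring
  have c1 : φ (WithLp.toLp 2 ![x, c * y]) 1 = u 1 * x + d * u 0 * c * y + φ 0 1 := by
    rw [hφL]; simp only [PiLp.add_apply, PiLp.smul_apply, smul_eq_mul]; rw [j2]; ring
  rw [← c0, ← c1]
  constructor
  · rintro rfl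
    obtain ⟨s, hs⟩ : φ (WithLp.toLp 2 ![x, c * f x]) ∈ Set.range
        (fun x : ℝ => (WithLp.toLp 2 ![x, f x] : EuclideanSpace ℝ (Fin 2))) :=
      hφ ▸ mem_image_of_mem φ ⟨x, rfl⟩
    rw [← hs]; simp
  · intro h1
    have : φ (WithLp.toLp 2 ![x, c * y]) ∈ Set.range
        (fun x : ℝ => (WithLp.toLp 2 ![x, f x] : EuclideanSpace ℝ (Fin 2))) := by
      refine ⟨φ (WithLp.toLp 2 ![x, c * y]) 0, ?_⟩
      ext i; fin_cases i
      · simp
      · simpa using h1.symm
    rw [← hφ] at this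
    obtain ⟨_, ⟨s, rfl⟩, hs⟩ := this
    have h2 := φ.injective hs
    have h3 : s = x := by simpa using congrArg (fun p : EuclideanSpace ℝ (Fin 2) => p 0) h2
    have h4 : c * f s = c * y := by
      simpa using congrArg (fun p : EuclideanSpace ℝ (Fin 2) => p 1) h2
    rw [← h3]; exact (mul_left_cancel₀ hc.ne' h4).symm

lemma baire_one {f : ℝ → ℝ} {g : ℕ → ℝ → ℝ} (hg : ∀ n, Continuous (g n))
    (hl : ∀ x, Tendsto (fun n => g n x) atTop (𝓝 (f x))) : ∃ x, ContinuousAt f x := by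
  set A : ℕ → ℕ → Set ℝ := fun k N =>
    {x | ∀ m, N ≤ m → |g m x - g N x| ≤ 1 / ((k : ℝ) + 1)} with hA
  have hcl : ∀ k N, IsClosed (A k N) := fun k N => by
    simp only [hA, ofPred_forall]
    exact isClosed_iInter fun m => isClosed_iInter fun _ =>
      isClosed_le ((hg m).sub (hg N)).abs continuous_const
  have hcov : ∀ k, ⋃ N, A k N = univ := fun k => by
    refine eq_univ_of_forall fun x => ?_
    obtain ⟨N, hN⟩ := Metric.cauchySeq_iff'.1 (hl x).cauchySeq (1 / ((k : ℝ) + 1)) (by positivity)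
    exact mem_iUnion.2 ⟨N, fun m hm => (hN m hm).le⟩
  obtain ⟨x, hx⟩ := (dense_iInter_of_isOpen (f := fun k => ⋃ N, interior (A k N))
    (fun k => isOpen_iUnion fun N => isOpen_interior)
    (fun k => dense_iUnion_interior_of_closed (hcl k) (hcov k))).nonempty
  refine ⟨x, Metric.continuousAt_iff'.2 fun ε hε => ?_⟩
  obtain ⟨k, hk⟩ := exists_nat_one_div_lt (show 0 < ε / 3 by linarith)
  obtain ⟨N, hN⟩ := mem_iUnion.1 (mem_iInter.1 hx k)
  have hb : ∀ y ∈ A k N, |f y - g N y| ≤ 1 / ((k : ℝ) + 1) := fun y hy =>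
    le_of_tendsto (((hl y).sub_const (g N y)).abs) (eventually_atTop.2 ⟨N, hy⟩)
  filter_upwards [mem_interior_iff_mem_nhds.1 hN,
    Metric.continuousAt_iff'.1 (hg N).continuousAt (ε / 3) (by linarith)] with y h1 h2
  have h3 := abs_le.1 (hb y h1)
  have h4 := abs_le.1 (hb x (interior_subset hN))
  rw [Real.dist_eq, abs_lt] at h2 ⊢
  constructor <;> linarith

end Pool.Agent.H.MP_1755e3_an
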